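import Pool.Agent.T9h50.GC.Per

set_option autoImplicit false

/-! For Baire generic `±1` potentials there are no square summable eigenfunctions. -/

namespace Pool.Agent.T9h50.GC

open Finset Complex Filter Pool.Agent.H12R2.And
open scoped InnerProductSpace Topology

variable {d : ℕ}

/-- all normalised eigenfunctions are small at `x` -/
def Small (x : V d) (κ : ℝ) (ω : V d → Bool) : Prop :=
  ∀ (E : ℂ) (u : W d), ‖u‖ ≤ 1 → (∀ y, hop ω u y = E * u y) → ‖u x‖ ≤ κ

lemma norm_hop_le {ω : V d → Bool} {u : V d → ℂ} (hu : ∀ y, ‖u y‖ ≤ 1) (x : V d) :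
    ‖hop ω u x‖ ≤ 4 * d + 1 := by
  unfold hop
  have h1 : ‖∑ i : Fin d, ((u (x + ee i) - u x) + (u (x - ee i) - u x))‖ ≤ ∑ _i : Fin d, (4 : ℝ) := by
    refine (norm_sum_le _ _).trans (Finset.sum_le_sum fun i _ => ?_)
    have a1 := norm_add_le (u (x + ee i) - u x) (u (x - ee i) - u x)
    have a2 := norm_sub_le (u (x + ee i)) (u x)
    have a3 := norm_sub_le (u (x - ee i)) (u x)
    linarith [hu (x + ee i), hu (x - ee i), hu x]
  have h2 : ‖(if ω x then (1 : ℂ) else -1) * u x‖ ≤ 1 := by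
    rw [norm_mul]
    split_ifs <;> simpa using hu x
  have h3 : ∑ _i : Fin d, (4 : ℝ) = 4 * d := by simp; ring
  refine (norm_add_le _ _).trans ?_
  rw [norm_neg]
  linarith

lemma small_near {ω0 : V d → Bool} (h0 : ∀ (E : ℂ) (u : W d), (∀ y, hop ω0 u y = E * u y) → u = 0)
    (x : V d) {κ : ℝ} (hκ : 0 < κ) :
    ∃ N : ℕ, ∀ ω : V d → Bool, (∀ y ∈ Q (0 : V d) N, ω y = ω0 y) → Small x κ ω := by
  by_contra hc
  push Not at hc
  choose ω hω hns using hc
  unfold Small at hns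
  push Not at hns
  choose E u hu1 hu2 hu3 using hns
  set A : ℝ := (4 * d + 1) / κ with hA
  have hb : ∀ n y, ‖u n y‖ ≤ 1 := fun n y =>
    (lp.norm_apply_le_norm (by norm_num) (u n) y).trans (hu1 n)
  have hE : ∀ n, ‖E n‖ ≤ A := by
    intro n
    have h1 := norm_hop_le (ω := ω n) (hb n) x
    rw [hu2 n x, norm_mul] at h1
    rw [hA, le_div_iff₀ hκ]
    have h2 : ‖E n‖ * κ ≤ ‖E n‖ * ‖u n x‖ := by
      have := (hu3 n).le
      gcongr
    linarith
  set S : Set (ℂ × (V d → ℂ)) := Metric.closedBall 0 A ×ˢ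
    Set.pi Set.univ (fun _ => Metric.closedBall 0 1) with hS
  have hSc : IsCompact S := (isCompact_closedBall _ _).prod
    (isCompact_univ_pi fun _ => isCompact_closedBall _ _)
  set g : ℕ → ℂ × (V d → ℂ) := fun n => (E n, fun y => u n y) with hg
  have hgS : ∀ n, g n ∈ S := by
    intro n
    refine ⟨?_, fun y _ => ?_⟩
    · simpa [hg] using hE n
    · simpa [hg] using hb n y
  obtain ⟨p, hpS, hp⟩ := hSc.ultrafilter_le_nhds ((hyperfilter ℕ).map g) (by
    rw [Ultrafilter.coe_map, le_principal_iff]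
    exact Filter.mem_map.2 (Filter.Eventually.of_forall hgS))
  have ht : Tendsto g (hyperfilter ℕ) (𝓝 p) := hp
  have tE : Tendsto E (hyperfilter ℕ) (𝓝 p.1) := (continuous_fst.tendsto p).comp ht
  have tu : ∀ y, Tendsto (fun n => (u n y : ℂ)) (hyperfilter ℕ) (𝓝 (p.2 y)) := fun y =>
    (((continuous_apply y).comp continuous_snd).tendsto p).comp ht
  have hle : (hyperfilter ℕ : Filter ℕ) ≤ atTop := by
    rw [← Nat.cofinite_eq_atTop]
    exact hyperfilter_le_cofinite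
  have heq : ∀ y, hop ω0 p.2 y = p.1 * p.2 y := by
    intro y
    obtain ⟨R, hR⟩ : ∃ R : ℕ, y ∈ Q (0 : V d) R := by
      refine ⟨∑ i, (y i).natAbs, mem_Q.2 fun j => ?_⟩
      have h1 : (y j).natAbs ≤ ∑ i, (y i).natAbs :=
        Finset.single_le_sum (f := fun i => (y i).natAbs) (fun _ _ => Nat.zero_le _)
          (Finset.mem_univ j)
      simp only [Pi.zero_apply, sub_zero]
      rw [Int.abs_eq_natAbs]
      exact_mod_cast h1
    have t1 : Tendsto (fun n => hop ω0 (u n) y) (hyperfilter ℕ) (𝓝 (hop ω0 p.2 y)) := by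
      unfold hop
      refine Tendsto.add (Tendsto.neg (tendsto_finsetSum _ fun i _ => ?_))
        (Tendsto.mul tendsto_const_nhds (tu y))
      exact ((tu (y + ee i)).sub (tu y)).add ((tu (y - ee i)).sub (tu y))
    have t2 : Tendsto (fun n => E n * u n y) (hyperfilter ℕ) (𝓝 (p.1 * p.2 y)) := tE.mul (tu y)
    refine tendsto_nhds_unique (t1.congr' ?_) t2
    have hev : ∀ᶠ n : ℕ in (hyperfilter ℕ : Filter ℕ), R ≤ n := hle (eventually_ge_atTop R)
    filter_upwards [hev] with n hn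
    rw [← hu2 n y]
    unfold hop
    rw [hω n y (Q_mono hn hR)]
  have hsum : ∀ s : Finset (V d), ∑ y ∈ s, ‖p.2 y‖ ^ 2 ≤ 1 := by
    intro s
    have t1 : Tendsto (fun n => ∑ y ∈ s, ‖(u n y : ℂ)‖ ^ 2) (hyperfilter ℕ)
        (𝓝 (∑ y ∈ s, ‖p.2 y‖ ^ 2)) := tendsto_finsetSum _ fun y _ => (tu y).norm.pow 2
    refine le_of_tendsto t1 (Eventually.of_forall fun n => ?_)
    have h1 := lp.sum_rpow_le_norm_rpow (p := 2) (by norm_num) (u n) s
    have h2 : ‖u n‖ ^ 2 ≤ 1 := by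
      have := hu1 n
      have h0 := norm_nonneg (u n)
      nlinarith
    have h3 : ∑ y ∈ s, ‖(u n y : ℂ)‖ ^ 2 ≤ ‖u n‖ ^ 2 := by simpa using h1
    exact h3.trans h2
  have hmem : Memℓp p.2 2 := by
    rw [memℓp_gen_iff (by norm_num)]
    have : Summable fun y => ‖p.2 y‖ ^ 2 := summable_of_sum_le (fun y => by positivity) hsum
    simpa using this
  have hz := h0 p.1 ⟨p.2, hmem⟩ heq
  have hx0 : p.2 x = 0 := by
    have := congrArg (fun w : W d => (w x : ℂ)) hz
    simpa using this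
  have hge : κ ≤ ‖p.2 x‖ :=
    ge_of_tendsto (tu x).norm (Eventually.of_forall fun n => (hu3 n).le)
  rw [hx0, norm_zero] at hge
  linarith

lemma isOpen_cyl (N : ℕ) (ω : V d → Bool) : IsOpen {ω' : V d → Bool | ∀ y ∈ Q (0 : V d) N, ω' y = ω y} := by
  have : {ω' : V d → Bool | ∀ y ∈ Q (0 : V d) N, ω' y = ω y} =
      ⋂ y ∈ Q (0 : V d) N, (fun ω' : V d → Bool => ω' y) ⁻¹' {ω y} := by
    ext ω'; simp
  rw [this]
  exact isOpen_biInter_finset fun y _ => (isOpen_discrete _).preimage (continuous_apply y)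

lemma dense_of_cyl {U : Set (V d → Bool)}
    (h : ∀ (ω : V d → Bool) (N : ℕ), ∃ ω' ∈ U, ∀ y ∈ Q (0 : V d) N, ω' y = ω y) : Dense U := by
  classical
  intro ω
  rw [mem_closure_iff_nhds]
  intro W hW
  rw [nhds_pi, Filter.mem_pi'] at hW
  obtain ⟨I, t, ht, hsub⟩ := hW
  obtain ⟨R0, hR0⟩ : ∃ R0 : ℕ, ∀ x ∈ I, x ∈ Q (0 : V d) R0 := by
    refine ⟨∑ x ∈ I, ∑ i, (x i).natAbs, fun x hx => ?_⟩
    rw [mem_Q]
    intro j
    have h1 : (x j).natAbs ≤ ∑ i, (x i).natAbs :=
      Finset.single_le_sum (f := fun i => (x i).natAbs) (fun _ _ => Nat.zero_le _) (Finset.mem_univ j)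
    have h2 : ∑ i, (x i).natAbs ≤ ∑ x ∈ I, ∑ i, (x i).natAbs :=
      Finset.single_le_sum (f := fun x : V d => ∑ i, (x i).natAbs) (fun _ _ => Nat.zero_le _) hx
    have h3 : |x j - (0 : V d) j| = ((x j).natAbs : ℤ) := by simp
    rw [h3]
    exact_mod_cast h1.trans h2
  obtain ⟨ω', hU, hω'⟩ := h ω R0
  refine ⟨ω', hsub ?_, hU⟩
  intro x hx
  rw [hω' x (hR0 x hx)]
  exact mem_of_mem_nhds (ht x)

/-- the periodic continuation of a pattern -/
lemma exists_periodic (ω : V d → Bool) (N : ℕ) : ∃ ω' : V d → Bool,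
    (∀ x v : V d, ω' (x + ((2 * N + 1 : ℕ) : ℤ) • v) = ω' x) ∧ ∀ y ∈ Q (0 : V d) N, ω' y = ω y := by
  refine ⟨fun y => ω fun i => (y i + N) % ((2 * N + 1 : ℕ) : ℤ) - N, fun x v => ?_, fun y hy => ?_⟩
  · simp only
    congr 1
    funext i
    have : (x + ((2 * N + 1 : ℕ) : ℤ) • v) i + N = (x i + N) + ((2 * N + 1 : ℕ) : ℤ) * v i := by
      simp only [Pi.add_apply, Pi.smul_apply, smul_eq_mul]; ring
    rw [this, Int.add_mul_emod_self_left]
  · simp only
    congr 1
    funext i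
    have h1 := mem_Q.1 hy i
    simp only [Pi.zero_apply, sub_zero] at h1
    rw [abs_le] at h1
    rw [Int.emod_eq_of_lt (by linarith) (by push_cast; linarith)]
    ring

/-- generic absence of eigenfunctions -/
theorem generic_noeig (i0 : Fin d) : ∀ᶠ ω in residual (V d → Bool),
    ∀ (E : ℂ) (u : W d), (∀ y, hop ω u y = E * u y) → u = 0 := by
  have h1 : ∀ᶠ ω in residual (V d → Bool), ∀ (x : V d) (k : ℕ), Small x (1 / ((k : ℝ) + 1)) ω := by
    rw [eventually_countable_forall]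
    intro x
    rw [eventually_countable_forall]
    intro k
    set U : Set (V d → Bool) := {ω | ∃ N : ℕ, ∀ ω' : V d → Bool,
      (∀ y ∈ Q (0 : V d) N, ω' y = ω y) → Small x (1 / ((k : ℝ) + 1)) ω'} with hU
    have hopen : IsOpen U := by
      rw [isOpen_iff_mem_nhds]
      rintro ω ⟨N, hN⟩
      refine mem_of_superset ((isOpen_cyl N ω).mem_nhds (fun y _ => rfl)) ?_
      intro ω1 hω1
      refine ⟨N, fun ω' hω' => hN ω' fun y hy => ?_⟩
      rw [hω' y hy, hω1 y hy]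
    have hdense : Dense U := by
      refine dense_of_cyl fun ω N => ?_
      obtain ⟨ω', hper, hag⟩ := exists_periodic ω N
      refine ⟨ω', ?_, hag⟩
      exact small_near (fun E u hu => no_eig_periodic i0 (p := 2 * N + 1) (by omega) hper hu) x
        (by positivity)
    filter_upwards [residual_of_dense_open hopen hdense] with ω hω
    obtain ⟨N, hN⟩ := hω
    exact hN ω fun _ _ => rfl
  filter_upwards [h1] with ω hω E u hu
  by_contra hne
  have hun : 0 < ‖u‖ := norm_pos_iff.2 hne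
  obtain ⟨x0, hx0⟩ : ∃ x0, u x0 ≠ 0 := by
    by_contra hc
    push Not at hc
    apply hne
    ext x
    simp [hc x]
  set w : W d := ((‖u‖⁻¹ : ℝ) : ℂ) • u with hw
  have hw1 : ‖w‖ ≤ 1 := by
    rw [hw, norm_smul]
    simp [hun.ne']
  have hwk : w ∈ Ker ω E := (Ker ω E).smul_mem _ (show u ∈ Ker ω E from hu)
  have hwx : 0 < ‖w x0‖ := by
    rw [norm_pos_iff, hw]
    simp only [lp.coeFn_smul, Pi.smul_apply, smul_eq_mul]
    refine mul_ne_zero ?_ hx0
    simp [hun.ne']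
  obtain ⟨k, hk⟩ := exists_nat_one_div_lt hwx
  have := hω x0 k E w hw1 hwk
  linarith

end Pool.Agent.T9h50.GC
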