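import Pool.Agent.H12R2.And1

set_option autoImplicit false

/-! Lattice Schrödinger operators with periodic `±1` potentials have no square summable
eigenfunctions: the trace of the eigenprojection on a large cube would have to be at most the size
of the boundary of the cube. -/

namespace Pool.Agent.T9h50.GC

open Finset Complex Pool.Agent.H12R2.And
open scoped InnerProductSpace

variable {d : ℕ}

/-- `ℓ²(ℤ^d)` -/
noncomputable abbrev W (d : ℕ) := lp (fun _ : V d => ℂ) 2

/-- unit vectors -/
noncomputable def dl (y : V d) : W d := lp.single 2 y (1 : ℂ)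

lemma inner_dl (y : V d) (f : W d) : ⟪dl y, f⟫_ℂ = f y := by
  unfold dl
  rw [lp.inner_single_left]
  simp

lemma count_bound (K : Submodule ℂ (W d)) [CompleteSpace K] :
    ∃ a : V d → ℝ, (∀ u ∈ K, ∀ y, ‖u y‖ ^ 2 ≤ a y * ‖u‖ ^ 2) ∧
      ∀ B L : Finset (V d), (∀ v ∈ K, (∀ b ∈ B, v b = 0) → ∀ y ∈ L, v y = 0) →
        ∑ y ∈ L, a y ≤ B.card := by
  classical
  set P := K.starProjection with hP
  have hin : ∀ w ∈ K, ∀ z, ⟪P (dl z), w⟫_ℂ = w z := by
    intro w hw z
    have := K.starProjection_inner_eq_zero (dl z) w hw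
    rw [inner_sub_left, sub_eq_zero] at this
    rw [← inner_dl, this]
  have hPK : ∀ z, P z ∈ K := fun z => K.starProjection_apply_mem z
  refine ⟨fun y => ‖P (dl y)‖ ^ 2, fun u hu y => ?_, fun B L h => ?_⟩
  · rw [← hin u hu y, ← mul_pow]
    gcongr
    exact norm_inner_le_norm _ _
  · set M : Submodule ℂ (W d) := Submodule.span ℂ (Set.range fun b : B => P (dl b)) with hM
    have : FiniteDimensional ℂ M := FiniteDimensional.span_of_finite ℂ (Set.finite_range _)
    have hMK : M ≤ K := by
      rw [hM, Submodule.span_le]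
      rintro _ ⟨b, rfl⟩
      exact hPK _
    have hmem : ∀ y ∈ L, P (dl y) ∈ M := by
      intro y hy
      have hMm := M.starProjection_apply_mem (P (dl y))
      set r := P (dl y) - M.starProjection (P (dl y)) with hr
      have hrK : r ∈ K := K.sub_mem (hPK _) (hMK hMm)
      have hort : ∀ w ∈ M, ⟪r, w⟫_ℂ = 0 := fun w hw =>
        M.starProjection_inner_eq_zero (P (dl y)) w hw
      have hrB : ∀ b ∈ B, r b = 0 := by
        intro b hb
        rw [← hin r hrK b]
        have h2 : P (dl b) ∈ M := Submodule.subset_span ⟨⟨b, hb⟩, rfl⟩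
        exact inner_eq_zero_symm.1 (hort _ h2)
      have hr0 : r y = 0 := h r hrK hrB y hy
      have h0 : ⟪r, r⟫_ℂ = 0 := by
        have e : r = P (dl y) - M.starProjection (P (dl y)) := hr
        calc ⟪r, r⟫_ℂ = ⟪P (dl y) - M.starProjection (P (dl y)), r⟫_ℂ := by rw [← e]
          _ = ⟪P (dl y), r⟫_ℂ - ⟪M.starProjection (P (dl y)), r⟫_ℂ := inner_sub_left _ _ _
          _ = 0 := by
            rw [hin r hrK y, hr0, inner_eq_zero_symm.1 (hort _ hMm), sub_zero]
      have h3 : r = 0 := inner_self_eq_zero.1 h0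
      have h4 : P (dl y) = M.starProjection (P (dl y)) := sub_eq_zero.1 (hr ▸ h3)
      rw [h4]; exact hMm
    have hcard : Module.finrank ℂ M ≤ B.card := by
      have := finrank_range_le_card (R := ℂ) (fun b : B => P (dl b))
      rw [Fintype.card_coe] at this
      exact this
    set l := stdOrthonormalBasis ℂ M with hl
    have hnorm : ∀ y ∈ L, ‖P (dl y)‖ ^ 2 = ∑ i, ‖((l i : M) : W d) y‖ ^ 2 := by
      intro y hy
      have h1 := l.sum_sq_norm_inner_right (⟨P (dl y), hmem y hy⟩ : M)
      have h2 : ‖(⟨P (dl y), hmem y hy⟩ : M)‖ = ‖P (dl y)‖ := rfl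
      rw [h2] at h1
      rw [← h1]
      refine Finset.sum_congr rfl fun i _ => ?_
      have h3 : ⟪l i, (⟨P (dl y), hmem y hy⟩ : M)⟫_ℂ = ⟪((l i : M) : W d), P (dl y)⟫_ℂ := rfl
      rw [h3, ← inner_conj_symm, hin _ (hMK (l i).2) y, RCLike.norm_conj]
    calc ∑ y ∈ L, ‖P (dl y)‖ ^ 2 = ∑ y ∈ L, ∑ i, ‖((l i : M) : W d) y‖ ^ 2 :=
          Finset.sum_congr rfl hnorm
      _ = ∑ i, ∑ y ∈ L, ‖((l i : M) : W d) y‖ ^ 2 := Finset.sum_comm
      _ ≤ ∑ _i : Fin (Module.finrank ℂ M), (1 : ℝ) := by
          refine Finset.sum_le_sum fun i _ => ?_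
          have h1 := lp.sum_rpow_le_norm_rpow (p := 2) (by norm_num) ((l i : M) : W d) L
          have h2 : ‖((l i : M) : W d)‖ = 1 := l.orthonormal.1 i
          rw [h2] at h1
          simpa using h1
      _ = Module.finrank ℂ M := by simp
      _ ≤ B.card := by exact_mod_cast hcard

/-- unique continuation from the boundary layer of a cube -/
lemma uc {ω : V d → Bool} {E : ℂ} (i0 : Fin d) {m : ℕ} {v : V d → ℂ}
    (h : ∀ x ∈ Q (0 : V d) (m + 1), hop ω v x = E * v x)
    (hB : ∀ x ∈ Q (0 : V d) (m + 2), x ∉ Q (0 : V d) m → v x = 0) :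
    ∀ x ∈ Q (0 : V d) (m + 2), v x = 0 := by
  have key : ∀ k : ℕ, ∀ x ∈ Q (0 : V d) (m + 2), x i0 = -((m : ℤ) + 2) + k → v x = 0 := by
    intro k
    induction k using Nat.strong_induction_on with
    | _ k ih =>
      intro x hx hxk
      by_cases hxm : x ∈ Q (0 : V d) m
      swap
      · exact hB x hx hxm
      have hlt : ∀ w ∈ Q (0 : V d) (m + 2), w i0 < x i0 → v w = 0 := by
        intro w hw hwx
        have h1 := (abs_le.1 (mem_Q.1 hw i0)).1
        simp only [Pi.zero_apply, sub_zero] at h1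
        push_cast at h1
        refine ih (w i0 + (m + 2)).toNat ?_ w hw ?_
        · omega
        · have : ((w i0 + ((m : ℤ) + 2)).toNat : ℤ) = w i0 + (m + 2) := Int.toNat_of_nonneg (by linarith)
          rw [this]; ring
      set y : V d := x - ee i0 with hy
      have hyQ : y ∈ Q (0 : V d) (m + 1) := Q_trans hxm (sub_ee_mem x i0)
      have hyi : y i0 = x i0 - 1 := by simp [hy, ee]
      have hyx : y + ee i0 = x := by rw [hy]; abel
      have hQ2 : ∀ w, w ∈ Q y 1 → w ∈ Q (0 : V d) (m + 2) := fun w hw =>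
        Q_mono (by omega) (Q_trans hyQ hw)
      have hy0 : v y = 0 := hlt y (Q_mono (by omega) hyQ) (by rw [hyi]; linarith)
      have h1 := h y hyQ
      have h2 : hop ω v y = -v x := by
        unfold hop
        rw [hy0, Finset.sum_eq_single i0]
        · rw [hyx]
          have h3 : v (y - ee i0) = 0 := by
            refine hlt _ (hQ2 _ (sub_ee_mem y i0)) ?_
            simp only [Pi.sub_apply, ee, Pi.single_eq_same]
            rw [hyi]; linarith
          rw [h3]; ring
        · intro i _ hi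
          have h4 : v (y + ee i) = 0 := by
            refine hlt _ (hQ2 _ (add_ee_mem y i)) ?_
            simp only [Pi.add_apply, ee, Pi.single_eq_of_ne (Ne.symm hi)]
            rw [hyi]; linarith
          have h5 : v (y - ee i) = 0 := by
            refine hlt _ (hQ2 _ (sub_ee_mem y i)) ?_
            simp only [Pi.sub_apply, ee, Pi.single_eq_of_ne (Ne.symm hi)]
            rw [hyi]; linarith
          rw [h4, h5]; ring
        · intro hn; exact absurd (Finset.mem_univ _) hn
      rw [h2, hy0, mul_zero, neg_eq_zero] at h1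
      exact h1
  intro x hx
  have h1 := (abs_le.1 (mem_Q.1 hx i0)).1
  simp only [Pi.zero_apply, sub_zero] at h1
  push_cast at h1
  refine key (x i0 + (m + 2)).toNat x hx ?_
  have : ((x i0 + ((m : ℤ) + 2)).toNat : ℤ) = x i0 + (m + 2) := Int.toNat_of_nonneg (by linarith)
  rw [this]; ring

/-- the space of square summable solutions -/
noncomputable def Ker (ω : V d → Bool) (E : ℂ) : Submodule ℂ (W d) where
  carrier := {v | ∀ x, hop ω v x = E * v x}
  add_mem' := by
    intro a b ha hb x
    have h1 := ha x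
    have h2 := hb x
    unfold hop at *
    simp only [lp.coeFn_add, Pi.add_apply]
    have h3 : ∑ i : Fin d, (a (x + ee i) + b (x + ee i) - (a x + b x) +
        (a (x - ee i) + b (x - ee i) - (a x + b x))) =
        ∑ i : Fin d, ((a (x + ee i) - a x) + (a (x - ee i) - a x)) +
        ∑ i : Fin d, ((b (x + ee i) - b x) + (b (x - ee i) - b x)) := by
      rw [← Finset.sum_add_distrib]
      exact Finset.sum_congr rfl fun i _ => by ring
    rw [h3]
    linear_combination h1 + h2
  zero_mem' := by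
    intro x
    unfold hop
    simp
  smul_mem' := by
    intro c a ha x
    have h1 := ha x
    unfold hop at *
    simp only [lp.coeFn_smul, Pi.smul_apply, smul_eq_mul]
    have h3 : ∑ i : Fin d, (c * a (x + ee i) - c * a x + (c * a (x - ee i) - c * a x)) =
        c * ∑ i : Fin d, ((a (x + ee i) - a x) + (a (x - ee i) - a x)) := by
      rw [Finset.mul_sum]
      exact Finset.sum_congr rfl fun i _ => by ring
    rw [h3]
    linear_combination c * h1

lemma mem_Ker {ω : V d → Bool} {E : ℂ} {v : W d} : v ∈ Ker ω E ↔ ∀ x, hop ω v x = E * v x := Iff.rfl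

lemma isClosed_Ker (ω : V d → Bool) (E : ℂ) : IsClosed (Ker ω E : Set (W d)) := by
  have hev : ∀ x : V d, Continuous fun v : W d => v x := fun x =>
    (lp.evalCLM ℂ (fun _ : V d => ℂ) 2 x).continuous
  have : (Ker ω E : Set (W d)) = ⋂ x, {v : W d | hop ω v x = E * v x} := by
    ext v
    simp only [SetLike.mem_coe, mem_Ker, Set.mem_iInter, Set.mem_ofPred_eq]
  rw [this]
  refine isClosed_iInter fun x => isClosed_eq ?_ (continuous_const.mul (hev x))
  unfold hop
  have h1 : ∀ i : Fin d, Continuous fun v : W d =>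
      ((v (x + ee i) : ℂ) - v x) + ((v (x - ee i) : ℂ) - v x) :=
    fun i => (Continuous.sub (hev (x + ee i)) (hev x)).add (Continuous.sub (hev (x - ee i)) (hev x))
  exact (continuous_finsetSum _ fun i _ => h1 i).neg.add (continuous_const.mul (hev x))

/-- periodic potentials have no eigenfunctions -/
theorem no_eig_periodic (i0 : Fin d) {ω : V d → Bool} {p : ℕ} (hp : 0 < p)
    (hper : ∀ x v : V d, ω (x + (p : ℤ) • v) = ω x) {E : ℂ} {u : W d}
    (hu : ∀ x, hop ω u x = E * u x) : u = 0 := by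
  classical
  by_contra hne
  have : CompleteSpace (Ker ω E) := (isClosed_Ker ω E).completeSpace_coe
  obtain ⟨a, ha1, ha2⟩ := count_bound (Ker ω E)
  obtain ⟨x0, hx0⟩ : ∃ x0, u x0 ≠ 0 := by
    by_contra hc
    push Not at hc
    apply hne
    ext x
    simp [hc x]
  have hun : 0 < ‖u‖ := norm_pos_iff.2 hne
  set c : ℝ := ‖u x0‖ ^ 2 / ‖u‖ ^ 2 with hc
  have hc0 : 0 < c := by
    have : 0 < ‖u x0‖ := norm_pos_iff.2 hx0
    positivity
  -- translates
  have htr : ∀ v : V d, c ≤ a (x0 + (p : ℤ) • v) := by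
    intro v
    set t : V d := (p : ℤ) • v with ht
    set eq : V d ≃ V d := Equiv.addRight (-t) with heq
    have hmem : Memℓp (fun x : V d => u (x - t)) 2 := by
      have h1 := (lp.memℓp u)
      rw [memℓp_gen_iff (by norm_num)] at h1 ⊢
      have h2 := (Equiv.summable_iff eq).2 h1
      refine h2.congr fun x => ?_
      simp [heq, Function.comp, sub_eq_add_neg]
    set ut : W d := ⟨fun x => u (x - t), hmem⟩ with hut
    have hutv : ∀ x, ut x = u (x - t) := fun x => rfl
    have hnorm : ‖ut‖ = ‖u‖ := by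
      rw [lp.norm_eq_tsum_rpow (by norm_num), lp.norm_eq_tsum_rpow (by norm_num)]
      congr 1
      rw [← Equiv.tsum_eq eq (fun x => ‖u x‖ ^ (2 : ENNReal).toReal)]
      refine tsum_congr fun x => ?_
      rw [hutv]
      simp only [heq, Equiv.coe_addRight, sub_eq_add_neg]
    have hK : ut ∈ Ker ω E := by
      rw [mem_Ker]
      intro x
      have h1 := hu (x - t)
      have h2 : ω (x - t) = ω x := by
        have := hper (x - t) v
        rw [← ht, sub_add_cancel] at this
        exact this.symm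
      unfold hop at *
      rw [h2] at h1
      rw [hutv]
      simp only [hutv]
      rw [← h1]
      congr 2
      refine Finset.sum_congr rfl fun i _ => ?_
      rw [show x + ee i - t = x - t + ee i by abel, show x - ee i - t = x - t - ee i by abel]
    have h1 := ha1 ut hK (x0 + t)
    rw [hnorm, hutv, add_sub_cancel_right] at h1
    rw [hc, div_le_iff₀ (by positivity)]
    exact h1
  obtain ⟨R, hR⟩ : ∃ R : ℕ, x0 ∈ Q (0 : V d) R := by
    refine ⟨∑ i, (x0 i).natAbs, mem_Q.2 fun j => ?_⟩
    have h1 : (x0 j).natAbs ≤ ∑ i, (x0 i).natAbs :=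
      Finset.single_le_sum (f := fun i => (x0 i).natAbs) (fun _ _ => Nat.zero_le _) (Finset.mem_univ j)
    simp only [Pi.zero_apply, sub_zero]
    rw [Int.abs_eq_natAbs]
    exact_mod_cast h1
  -- the count
  have hcount : ∀ k : ℕ, c * (2 * k + 1 : ℝ) ^ d ≤
      (2 * ((R + p * k : ℕ) + 2 : ℝ) + 1) ^ d - (2 * ((R + p * k : ℕ) : ℝ) + 1) ^ d := by
    intro k
    set m : ℕ := R + p * k with hm
    have h1 := ha2 (Q (0 : V d) (m + 2) \ Q (0 : V d) m) (Q (0 : V d) (m + 2)) (by
      intro v hv hvB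
      refine uc i0 (fun x _ => hv x) ?_
      intro x hx hxm
      exact hvB x (Finset.mem_sdiff.2 ⟨hx, hxm⟩))
    have h2 : ((Q (0 : V d) (m + 2) \ Q (0 : V d) m).card : ℝ) =
        (2 * ((m : ℝ) + 2) + 1) ^ d - (2 * (m : ℝ) + 1) ^ d := by
      rw [Finset.card_sdiff_of_subset (Q_mono (by omega)), Nat.cast_sub
        (Finset.card_le_card (Q_mono (by omega))), card_Q, card_Q]
      push_cast
      ring
    rw [h2] at h1
    refine le_trans ?_ h1
    have hinj : Function.Injective fun v : V d => x0 + (p : ℤ) • v := by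
      intro v w hvw
      have h3 : (p : ℤ) • v = (p : ℤ) • w := add_left_cancel hvw
      funext i
      have h4 := congrFun h3 i
      simp only [Pi.smul_apply, smul_eq_mul] at h4
      exact mul_left_cancel₀ (by exact_mod_cast hp.ne') h4
    have hsub : (Q (0 : V d) k).image (fun v : V d => x0 + (p : ℤ) • v) ⊆ Q (0 : V d) (m + 2) := by
      intro y hy
      obtain ⟨v, hv, rfl⟩ := Finset.mem_image.1 hy
      rw [mem_Q] at hv hR ⊢
      intro i
      have h5 := hv i
      have h6 := hR i
      simp only [Pi.zero_apply, sub_zero, Pi.add_apply, Pi.smul_apply, smul_eq_mul] at *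
      have h7 : |(p : ℤ) * v i| ≤ p * k := by
        rw [abs_mul, Nat.abs_cast]
        exact mul_le_mul_of_nonneg_left h5 (by positivity)
      have h8 := abs_add_le (x0 i) ((p : ℤ) * v i)
      rw [hm]
      push_cast
      linarith
    have ha0 : ∀ y, 0 ≤ a y := by
      intro y
      have := (sq_nonneg ‖u y‖).trans (ha1 u hu y)
      exact nonneg_of_mul_nonneg_left this (by positivity)
    calc c * (2 * (k : ℝ) + 1) ^ d = ∑ _v ∈ Q (0 : V d) k, c := by
          rw [Finset.sum_const, card_Q, nsmul_eq_mul]; push_cast; ring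
      _ ≤ ∑ v ∈ Q (0 : V d) k, a (x0 + (p : ℤ) • v) := Finset.sum_le_sum fun v _ => htr v
      _ = ∑ y ∈ (Q (0 : V d) k).image (fun v : V d => x0 + (p : ℤ) • v), a y := by
          rw [Finset.sum_image fun v _ w _ h => hinj h]
      _ ≤ ∑ y ∈ Q (0 : V d) (m + 2), a y :=
          Finset.sum_le_sum_of_subset_of_nonneg hsub fun y _ _ => ha0 y
  -- the contradiction
  have hd : 1 ≤ d := Nat.one_le_iff_ne_zero.2 (by rintro rfl; exact i0.elim0)
  obtain ⟨e, rfl⟩ : ∃ e, d = e + 1 := ⟨d - 1, by omega⟩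
  set M : ℝ := 2 * R + p + 5 with hM
  have hM0 : 0 < M := by positivity
  have hkey : ∀ k : ℕ, c * (2 * k + 1 : ℝ) ≤ 4 * (e + 1) * M ^ e := by
    intro k
    have h1 := hcount k
    set A : ℝ := 2 * ((R + p * k : ℕ) + 2 : ℝ) + 1 with hA
    set B : ℝ := 2 * ((R + p * k : ℕ) : ℝ) + 1 with hB
    have hAB : A = B + 4 := by rw [hA, hB]; ring
    have hB0 : 0 < B := by positivity
    have hA0 : 0 < A := by positivity
    have h2 : A ^ (e + 1) - B ^ (e + 1) ≤ 4 * (e + 1) * A ^ e := by
      have h3 : 1 + ((e + 1 : ℕ) : ℝ) * (-(4 / A)) ≤ (1 + -(4 / A)) ^ (e + 1) := by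
        apply one_add_mul_le_pow
        have : 4 / A ≤ 1 := by rw [div_le_one hA0]; linarith
        linarith
      have h4 : B ^ (e + 1) = A ^ (e + 1) * (1 + -(4 / A)) ^ (e + 1) := by
        rw [← mul_pow]
        congr 1
        field_simp
        linarith
      have h5 : A ^ (e + 1) * (1 + ((e + 1 : ℕ) : ℝ) * (-(4 / A))) ≤ B ^ (e + 1) := by
        rw [h4]; gcongr
      have h6 : A ^ (e + 1) * (1 + ((e + 1 : ℕ) : ℝ) * (-(4 / A))) =
          A ^ (e + 1) - 4 * (e + 1) * A ^ e := by
        push_cast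
        field_simp
        ring
      linarith
    have h7 : A ≤ M * (2 * k + 1) := by
      rw [hA, hM]
      push_cast
      have hp1 : (1 : ℝ) ≤ p := by exact_mod_cast hp
      have hk0 : (0 : ℝ) ≤ k := Nat.cast_nonneg k
      have hR0 : (0 : ℝ) ≤ R := Nat.cast_nonneg R
      nlinarith [mul_nonneg hR0 hk0, mul_nonneg (by linarith : (0 : ℝ) ≤ p) hk0]
    have h8 : A ^ e ≤ M ^ e * (2 * k + 1) ^ e := by
      rw [← mul_pow]; gcongr
    have h9 : c * (2 * (k : ℝ) + 1) ^ (e + 1) ≤ 4 * (e + 1) * (M ^ e * (2 * k + 1) ^ e) := by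
      refine h1.trans (h2.trans ?_)
      gcongr
    have h10 : 0 < (2 * (k : ℝ) + 1) ^ e := by positivity
    have h11 : (c * (2 * (k : ℝ) + 1)) * (2 * k + 1) ^ e ≤ (4 * (e + 1) * M ^ e) * (2 * k + 1) ^ e := by
      calc (c * (2 * (k : ℝ) + 1)) * (2 * k + 1) ^ e = c * (2 * (k : ℝ) + 1) ^ (e + 1) := by ring
        _ ≤ 4 * (e + 1) * (M ^ e * (2 * k + 1) ^ e) := h9
        _ = _ := by ring
    exact le_of_mul_le_mul_right h11 h10
  obtain ⟨k, hk⟩ := exists_nat_gt (4 * (e + 1) * M ^ e / c)
  have h1 := hkey k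
  rw [div_lt_iff₀ hc0] at hk
  nlinarith [hk, h1, hc0, (Nat.cast_nonneg k : (0 : ℝ) ≤ k)]

end Pool.Agent.T9h50.GC
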